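import Pool.Agent.H43.BZ.Stm

/-!
# Folding of the gain term
-/

set_option autoImplicit false

open MeasureTheory Metric Set
open scoped RealInnerProductSpace ENNReal

namespace Pool.Agent.H271.BZG1

open Pool.Agent.H43.BZ

instance instFin (d : ℕ) : IsFiniteMeasure (surf d) := by unfold surf; infer_instance

lemma fold_neg (hr : S_ROT) (d : ℕ) (Ψ : E d × S d → ℝ≥0∞) (hΨ : Measurable Ψ) :
    ∫⁻ p, Ψ p ∂((volume : Measure (E d)).prod (surf d)) =
      ∫⁻ p, Ψ (p.1, -p.2) ∂((volume : Measure (E d)).prod (surf d)) := by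
  have hneg : Measurable fun p : E d × S d => (p.1, -p.2) :=
    measurable_fst.prodMk (continuous_neg.measurable.comp measurable_snd)
  have hm2 : Measurable fun p : E d × S d => Ψ (p.1, -p.2) := hΨ.comp hneg
  rw [lintegral_prod _ hΨ.aemeasurable, lintegral_prod _ hm2.aemeasurable]
  apply lintegral_congr
  intro w
  have h := hr d (LinearIsometryEquiv.neg ℝ) (fun σ => Ψ (w, σ)) (hΨ.comp (by fun_prop))
  rw [← h]
  apply lintegral_congr
  intro σ
  rfl

lemma null_cos (hn : S_NUL) (d : ℕ) (hd : 2 ≤ d) (v : E d) :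
    ∀ᵐ p ∂((volume : Measure (E d)).prod (surf d)), cosa (v - p.1) p.2 ≠ 0 := by
  have : Nonempty (Fin d) := ⟨⟨0, by omega⟩⟩
  have : Nontrivial (E d) := inferInstance
  have hm : MeasurableSet {p : E d × S d | cosa (v - p.1) p.2 = 0} := by
    have h1 : Measurable fun p : E d × S d => cosa (v - p.1) p.2 := by
      unfold cosa
      fun_prop
    exact h1 (measurableSet_singleton 0)
  have h0 : ((volume : Measure (E d)).prod (surf d)) {p : E d × S d | cosa (v - p.1) p.2 = 0} = 0 := by
    rw [Measure.measure_prod_null hm]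
    have hv : ∀ᵐ w ∂(volume : Measure (E d)), w ≠ v := by
      rw [ae_iff]
      simp
    filter_upwards [hv] with w hw
    have h2 := hn d hd (v - w) (sub_ne_zero.2 (Ne.symm hw))
    refine le_antisymm ?_ bot_le
    refine (measure_mono ?_).trans h2.le
    intro σ hσ
    have h3 : cosa (v - w) (σ : E d) = 0 := hσ
    unfold cosa at h3
    have h4 : ‖v - w‖ ≠ 0 := norm_ne_zero_iff.2 (sub_ne_zero.2 (Ne.symm hw))
    have h5 := (div_eq_zero_iff.1 h3).resolve_right h4
    exact h5
  rw [ae_iff]
  simpa using h0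

theorem G1 (hn : S_NUL) (hr : S_ROT) : S_G1 := by
  intro d hd γ b hb hb0 f hf hf0 v
  have mp : Measurable fun p : E d × S d => post v p.1 (p.2 : E d) := by
    unfold post; fun_prop
  have mq : Measurable fun p : E d × S d => post v p.1 (-(p.2 : E d)) := by
    unfold post; fun_prop
  have mx : Measurable fun p : E d × S d => cosa (v - p.1) (p.2 : E d) := by
    unfold cosa; fun_prop
  have mc : Measurable (chi v) := by
    unfold chi
    refine Measurable.ite ?_ measurable_const measurable_const
    exact measurableSet_le measurable_const (by fun_prop)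
  have chi0 : ∀ y : E d, 0 ≤ chi v y := by
    intro y; unfold chi; split_ifs <;> norm_num
  have chi1 : ∀ y : E d, chi v y ≤ 1 := by
    intro y; unfold chi; split_ifs <;> norm_num
  set W : E d × S d → ℝ := fun p =>
    (if 0 < cosa (v - p.1) p.2 then chi v (post v p.1 p.2) else 0) +
      (if cosa (v - p.1) p.2 < 0 then 1 - chi v (post v p.1 (-(p.2 : E d))) else 0) with hW
  have W0 : ∀ p, 0 ≤ W p := by
    intro p
    simp only [hW]
    apply add_nonneg
    · split_ifs
      · exact chi0 _
      · exact le_rfl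
    · split_ifs
      · exact sub_nonneg.2 (chi1 _)
      · exact le_rfl
  have mW : Measurable W := by
    apply Measurable.add
    · exact Measurable.ite (measurableSet_lt measurable_const mx) (mc.comp mp) measurable_const
    · exact Measurable.ite (measurableSet_lt mx measurable_const)
        (measurable_const.sub (mc.comp mq)) measurable_const
  set g : E d × S d → ℝ := fun p =>
    f (post v p.1 (-(p.2 : E d))) * f (post v p.1 p.2) * ‖v - p.1‖ ^ γ with hg
  have g0 : ∀ p, 0 ≤ g p := by
    intro p
    exact mul_nonneg (mul_nonneg (hf0 _) (hf0 _)) (Real.rpow_nonneg (norm_nonneg _) _)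
  have mg : Measurable g := by
    apply Measurable.mul
    · exact (hf.comp mq).mul (hf.comp mp)
    · have : Measurable fun p : E d × S d => ‖v - p.1‖ := by fun_prop
      exact this.pow_const γ
  have xneg : ∀ p : E d × S d, cosa (v - p.1) ((-p.2 : S d) : E d) = -cosa (v - p.1) p.2 := by
    intro p
    unfold cosa
    rw [coe_neg_sphere, inner_neg_right, neg_div]
  have gneg : ∀ p : E d × S d, g (p.1, -p.2) = g p := by
    intro p
    simp only [hg, coe_neg_sphere, neg_neg]
    ring
  have Wneg : ∀ p : E d × S d, cosa (v - p.1) (p.2 : E d) ≠ 0 → W p + W (p.1, -p.2) = 1 := by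
    intro p hp
    have x2 : cosa (v - p.1) (-(p.2 : E d)) = -cosa (v - p.1) p.2 := by
      unfold cosa
      rw [inner_neg_right, neg_div]
    simp only [hW, coe_neg_sphere, neg_neg, x2]
    rcases lt_or_gt_of_ne hp with h | h
    · rw [if_neg (not_lt.2 h.le), if_pos h, if_pos (by linarith), if_neg (by linarith)]
      ring
    · rw [if_pos h, if_neg (not_lt.2 h.le), if_neg (by linarith), if_pos (by linarith)]
      ring
  have m1 : Measurable fun p => ENNReal.ofReal (g p * b (cosa (v - p.1) p.2) * W p) :=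
    ((mg.mul (hb.comp mx)).mul mW).ennreal_ofReal
  have m2 : Measurable fun p => ENNReal.ofReal (g p * b (-cosa (v - p.1) p.2) * W p) :=
    ((mg.mul (hb.comp mx.neg)).mul mW).ennreal_ofReal
  have e2 := fold_neg hr d _ m2
  have hsum : ∀ p : E d × S d,
      ENNReal.ofReal (f (post v p.1 (-(p.2 : E d))) * f (post v p.1 p.2) *
        (‖v - p.1‖ ^ γ * (b (cosa (v - p.1) p.2) + b (-cosa (v - p.1) p.2))) * W p) =
      ENNReal.ofReal (g p * b (cosa (v - p.1) p.2) * W p) +
        ENNReal.ofReal (g p * b (-cosa (v - p.1) p.2) * W p) := by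
    intro p
    rw [← ENNReal.ofReal_add (mul_nonneg (mul_nonneg (g0 p) (hb0 _)) (W0 p))
      (mul_nonneg (mul_nonneg (g0 p) (hb0 _)) (W0 p))]
    congr 1
    simp only [hg]
    ring
  have hR : ∫⁻ p : E d × S d, ENNReal.ofReal (f (post v p.1 (-(p.2 : E d))) * f (post v p.1 p.2) *
        (‖v - p.1‖ ^ γ * (b (cosa (v - p.1) p.2) + b (-cosa (v - p.1) p.2))) * W p)
        ∂((volume : Measure (E d)).prod (surf d)) =
      ∫⁻ p : E d × S d, (ENNReal.ofReal (g p * b (cosa (v - p.1) p.2) * W p) +
        ENNReal.ofReal (g (p.1, -p.2) * b (-cosa (v - p.1) ((-p.2 : S d) : E d)) * W (p.1, -p.2)))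
        ∂((volume : Measure (E d)).prod (surf d)) := by
    rw [lintegral_congr hsum, lintegral_add_left m1, lintegral_add_left m1, e2]
  refine Eq.trans ?_ hR.symm
  apply lintegral_congr_ae
  filter_upwards [null_cos hn d hd v] with p hp
  rw [gneg, xneg, neg_neg, ← ENNReal.ofReal_add
    (mul_nonneg (mul_nonneg (g0 p) (hb0 _)) (W0 p))
    (mul_nonneg (mul_nonneg (g0 p) (hb0 _)) (W0 _)), ← mul_add, Wneg p hp, mul_one]
  congr 1
  simp only [hg]
  ring

end Pool.Agent.H271.BZG1
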