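import Pool.Agent.H43.BZ.Stm5

/-!
# SOFT3: the choice of the moving scale for soft potentials
-/

set_option autoImplicit false

open MeasureTheory Metric Set Filter Topology
open scoped RealInnerProductSpace ENNReal

namespace Pool.Agent.H271.BZ.Soft3

open Pool.Agent.H43.BZ

theorem int_pow' {T p : ℝ} (hT : 0 < T) (hp : -1 < p) :
    IntegrableOn (fun t => (T - t) ^ p) (Ico 0 T) := by
  have h1 : IntervalIntegrable (fun x : ℝ => x ^ p) volume 0 T :=
    intervalIntegral.intervalIntegrable_rpow' hp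
  have h2 := h1.comp_sub_left T
  simp only [sub_zero, sub_self] at h2
  have h3 := h2.symm
  rw [intervalIntegrable_iff_integrableOn_Ico_of_le hT.le] at h3
  exact h3

/-- the choice of `x` -/
theorem exists_x {θ a e p γ x₀ : ℝ} (hx₀ : 0 < x₀) (h1 : (e - p * x₀) * θ < 1)
    (h2 : a + γ * x₀ < 1) (h3 : e - p * x₀ + γ * x₀ < 1) :
    ∃ x, 0 ≤ x ∧ x < x₀ ∧ (e - p * x) * θ < 1 ∧ a + γ * x < 1 ∧ e - p * x + γ * x < 1 := by
  have t0 : ∀ᶠ x in 𝓝[<] x₀, 0 < x :=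
    ((continuous_id.tendsto x₀).mono_left nhdsWithin_le_nhds).eventually_const_lt hx₀
  have t1 : ∀ᶠ x in 𝓝[<] x₀, (e - p * x) * θ < 1 := by
    have hc : Continuous fun x : ℝ => (e - p * x) * θ := by fun_prop
    exact ((hc.tendsto x₀).mono_left nhdsWithin_le_nhds).eventually_lt_const h1
  have t2 : ∀ᶠ x in 𝓝[<] x₀, a + γ * x < 1 := by
    have hc : Continuous fun x : ℝ => a + γ * x := by fun_prop
    exact ((hc.tendsto x₀).mono_left nhdsWithin_le_nhds).eventually_lt_const h2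
  have t3 : ∀ᶠ x in 𝓝[<] x₀, e - p * x + γ * x < 1 := by
    have hc : Continuous fun x : ℝ => e - p * x + γ * x := by fun_prop
    exact ((hc.tendsto x₀).mono_left nhdsWithin_le_nhds).eventually_lt_const h3
  have t4 : ∀ᶠ x in 𝓝[<] x₀, x < x₀ := eventually_mem_nhdsWithin
  obtain ⟨x, g0, g4, g1, g2, g3⟩ := (t0.and (t4.and (t1.and (t2.and t3)))).exists
  exact ⟨x, g0.le, g4, g1, g2, g3⟩

/-- the pointwise inequality -/
theorem pt {u A₀ A C a e p x γ θ κ : ℝ} (hu : 0 < u) (hA₀ : 0 < A₀) (hA : 0 < A) (hC : 0 ≤ C)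
    (hθ0 : 0 ≤ θ) (hθ1 : θ ≤ 1) :
    C * (A₀ ^ κ * (A * u ^ (-a) + A * u ^ (-e) / (u ^ (-x)) ^ p) ^ θ +
      (u ^ (-x)) ^ γ * (A * u ^ (-a) + A * u ^ (-e) / (u ^ (-x)) ^ p)) ≤
    C * (A₀ ^ κ * (A ^ θ * (u ^ (-(a * θ)) + u ^ (-((e - p * x) * θ)))) +
      A * (u ^ (-(a + γ * x)) + u ^ (-(e - p * x + γ * x)))) := by
  have e1 : A * u ^ (-e) / (u ^ (-x)) ^ p = A * u ^ (-(e - p * x)) := by
    rw [← Real.rpow_mul hu.le, mul_div_assoc, ← Real.rpow_sub hu]
    have : -e - -x * p = -(e - p * x) := by ring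
    rw [this]
  have e2 : (u ^ (-x)) ^ γ = u ^ (-(γ * x)) := by
    rw [← Real.rpow_mul hu.le]
    have : -x * γ = -(γ * x) := by ring
    rw [this]
  rw [e1, e2]
  have f1 : ∀ b : ℝ, (A * u ^ (-b)) ^ θ = A ^ θ * u ^ (-(b * θ)) := by
    intro b
    rw [Real.mul_rpow hA.le (Real.rpow_pos_of_pos hu _).le, ← Real.rpow_mul hu.le]
    have : -b * θ = -(b * θ) := by ring
    rw [this]
  have f2 : ∀ b : ℝ, u ^ (-(γ * x)) * (A * u ^ (-b)) = A * u ^ (-(b + γ * x)) := by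
    intro b
    have : -(b + γ * x) = -(γ * x) + -b := by ring
    rw [this, Real.rpow_add hu]
    ring
  have main : (A * u ^ (-a) + A * u ^ (-(e - p * x))) ^ θ ≤
      A ^ θ * (u ^ (-(a * θ)) + u ^ (-((e - p * x) * θ))) := by
    refine (Real.rpow_add_le_add_rpow (by positivity) (by positivity) hθ0 hθ1).trans ?_
    rw [f1, f1, mul_add]
  refine mul_le_mul_of_nonneg_left (add_le_add ?_ ?_) hC
  · exact mul_le_mul_of_nonneg_left main (Real.rpow_pos_of_pos hA₀ _).le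
  · rw [mul_add (u ^ (-(γ * x))), f2, f2, mul_add]

theorem SOFT3 : S_SOFT3 := by
  intro d γ T A₀ A C a e p hd hγd hγ hT hA₀ hA hC hp ha he
  have hdR : (0 : ℝ) < d := by
    have : (2 : ℝ) ≤ d := by exact_mod_cast hd
    linarith
  have hdg : 0 < (d : ℝ) + γ := by linarith
  have hθe : 1 + γ / d = ((d : ℝ) + γ) / d := by field_simp
  have hθ0 : 0 < 1 + γ / (d : ℝ) := by rw [hθe]; positivity
  have hθ1 : 1 + γ / (d : ℝ) ≤ 1 := by
    have : γ / (d : ℝ) ≤ 0 := div_nonpos_of_nonpos_of_nonneg hγ.le hdR.le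
    linarith
  have hx₀0 : 0 < 1 / ((d : ℝ) + γ) := by positivity
  have hk1 : (d : ℝ) / (d + γ) * (1 + γ / d) = 1 := by
    rw [hθe]
    field_simp
  have ha1 : a * (1 + γ / d) < 1 :=
    (mul_lt_mul_of_pos_right ha hθ0).trans_eq hk1
  have he0 : e - p * (1 / ((d : ℝ) + γ)) < d / (d + γ) := by
    have : ((d : ℝ) + p) / (d + γ) - p * (1 / ((d : ℝ) + γ)) = d / (d + γ) := by
      field_simp
      ring
    linarith
  have hk2 : (d : ℝ) / (d + γ) + γ * (1 / ((d : ℝ) + γ)) = 1 := by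
    field_simp
  obtain ⟨x, hx0, hxlt, g1, g2, g3⟩ := exists_x (θ := 1 + γ / (d : ℝ)) (a := a) (e := e) (p := p)
    (γ := γ) hx₀0 ((mul_lt_mul_of_pos_right he0 hθ0).trans_eq hk1) (by linarith) (by linarith)
  refine ⟨x, fun t => C * (A₀ ^ (-γ / d) * (A ^ (1 + γ / (d : ℝ)) *
      ((T - t) ^ (-(a * (1 + γ / (d : ℝ)))) + (T - t) ^ (-((e - p * x) * (1 + γ / (d : ℝ)))))) +
      A * ((T - t) ^ (-(a + γ * x)) + (T - t) ^ (-(e - p * x + γ * x)))), hx0, ?_, ?_, ?_⟩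
  · rw [lt_div_iff₀ hdg] at hxlt
    linarith
  · have i1 := int_pow' (T := T) (p := -(a * (1 + γ / (d : ℝ)))) hT (by linarith)
    have i2 := int_pow' (T := T) (p := -((e - p * x) * (1 + γ / (d : ℝ)))) hT (by linarith)
    have i3 := int_pow' (T := T) (p := -(a + γ * x)) hT (by linarith)
    have i4 := int_pow' (T := T) (p := -(e - p * x + γ * x)) hT (by linarith)
    have j1 := ((i1.add i2).const_mul (A ^ (1 + γ / (d : ℝ)))).const_mul (A₀ ^ (-γ / (d : ℝ)))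
    have j2 := (i3.add i4).const_mul A
    exact (j1.add j2).const_mul C
  · intro t ht
    exact pt (by linarith [ht.2]) hA₀ hA hC hθ0.le hθ1

end Pool.Agent.H271.BZ.Soft3
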